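import Mathlib
import Pool.Agent.N437.QR.Stm

/-! Project QR (helper437), leaf QR1 (helper291). -/

set_option autoImplicit false

namespace Pool.Agent.N291.QR

open Finset Pool.Agent.N437.QR

theorem sg_mul (a b : Bool) : sg a * sg b = 1 ∨ sg a * sg b = -1 := by
  cases a <;> cases b <;> simp [sg]

theorem factor (η : ℝ) (hη : |η| ≤ 1) (a b : Bool) :
    0 ≤ 1 + η * (sg a * sg b) ∧ 1 + η * (sg a * sg b) ≤ 1 + |η| := by
  obtain ⟨h1, h2⟩ := abs_le.1 hη
  rcases sg_mul a b with h | h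
  · rw [h, mul_one]
    exact ⟨by linarith, by linarith [le_abs_self η]⟩
  · rw [h]
    exact ⟨by linarith, by linarith [neg_le_abs η]⟩

theorem Wk_bd (d : ℕ) (η : ℝ) (hη : |η| ≤ 1) (e : Sym2 (Fin d → Bool)) :
    0 ≤ Wk d η e ∧ Wk d η e ≤ (1 + |η|) ^ d := by
  induction e using Sym2.ind with
  | _ a b =>
    have e1 : Wk d η s(a, b) = ∏ i, (1 + η * (sg (a i) * sg (b i))) := rfl
    rw [e1]
    refine ⟨prod_nonneg fun i _ => (factor η hη _ _).1, ?_⟩
    calc ∏ i, (1 + η * (sg (a i) * sg (b i))) ≤ ∏ _i : Fin d, (1 + |η|) :=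
          prod_le_prod (fun i _ => (factor η hη _ _).1) fun i _ => (factor η hη _ _).2
      _ = (1 + |η|) ^ d := by simp

theorem t_QR1 : S_QR1 := by
  intro n d η p hη hp hp1 x e
  obtain ⟨h1, h2⟩ := Wk_bd d η hη (e.map x)
  unfold qx
  exact ⟨mul_nonneg hp h1, (mul_le_mul_of_nonneg_left h2 hp).trans hp1⟩

end Pool.Agent.N291.QR
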